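import Pool.Agent.Helper99.DF.St

/-! Project DF, module A2: rates and two-sided bounds of the iterates. -/

set_option autoImplicit false

namespace Pool.Agent.Helper28.DF

open Pool.Agent.Helper99.DF

/-- scalar version -/
private lemma rate_A2 (x : ℕ → ℝ) (ε : ℝ) (hε : 0 < ε) (hε1 : ε ≤ 1) (hx : ∀ t, 0 < x t)
    (h1 : ∀ t, ε * x t ^ 2 ≤ x (t + 1)) (h2 : ∀ t, x (t + 1) ≤ x t ^ 2) (t : ℕ) :
    Real.exp (2 ^ t * ⨅ s : ℕ, Real.log (x s) / 2 ^ s) ≤ x t ∧
      x t ≤ ε⁻¹ * Real.exp (2 ^ t * ⨅ s : ℕ, Real.log (x s) / 2 ^ s) := by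
  set a : ℕ → ℝ := fun s => Real.log (x s) / 2 ^ s with ha
  have hlε : Real.log ε ≤ 0 := Real.log_nonpos hε.le hε1
  have hanti : Antitone a := by
    refine antitone_nat_of_succ_le fun s => ?_
    simp only [ha]
    rw [div_le_div_iff₀ (by positivity) (by positivity), pow_succ]
    have h3 : Real.log (x (s + 1)) ≤ 2 * Real.log (x s) := by
      have := Real.log_le_log (hx (s + 1)) (h2 s)
      rwa [Real.log_pow, Nat.cast_ofNat] at this
    have h4 : (0 : ℝ) < 2 ^ s := by positivity
    nlinarith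
  have hlow : ∀ t j : ℕ, a t + Real.log ε * (1 / 2 ^ t - 1 / 2 ^ (t + j)) ≤ a (t + j) := by
    intro t j
    induction j with
    | zero => simp
    | succ j ih =>
      have h3 : Real.log ε + 2 * Real.log (x (t + j)) ≤ Real.log (x (t + j + 1)) := by
        have := Real.log_le_log (mul_pos hε (pow_pos (hx _) 2)) (h1 (t + j))
        rwa [Real.log_mul hε.ne' (pow_pos (hx _) 2).ne', Real.log_pow, Nat.cast_ofNat] at this
      have h5 : a (t + j) + Real.log ε / 2 ^ (t + j + 1) ≤ a (t + (j + 1)) := by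
        have h6 : a (t + j) + Real.log ε / 2 ^ (t + j + 1) =
            (Real.log ε + 2 * Real.log (x (t + j))) / 2 ^ (t + j + 1) := by
          simp only [ha]
          rw [pow_succ]
          field_simp
          ring
        rw [h6]
        exact div_le_div_of_nonneg_right h3 (by positivity)
      have h7 : (1 : ℝ) / 2 ^ (t + (j + 1)) = 1 / 2 ^ (t + j) / 2 := by
        rw [← add_assoc, pow_succ]
        field_simp
      have h8 : Real.log ε / 2 ^ (t + j + 1) = Real.log ε * (1 / 2 ^ (t + j) / 2) := by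
        rw [pow_succ]
        field_simp
      rw [h8] at h5
      rw [h7]
      linarith
  have hle : ∀ t s : ℕ, a t + Real.log ε * (1 / 2 ^ t) ≤ a s := by
    intro t s
    have h0 : (0 : ℝ) < 1 / 2 ^ t := by positivity
    rcases Nat.le_total t s with hts | hts
    · obtain ⟨j, rfl⟩ := Nat.exists_eq_add_of_le hts
      have h3 := hlow t j
      have h4 : (0 : ℝ) < 1 / 2 ^ (t + j) := by positivity
      nlinarith
    · have h3 := hanti hts
      nlinarith
  have hbdd : BddBelow (Set.range a) :=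
    ⟨a 0 + Real.log ε * (1 / 2 ^ 0), by rintro _ ⟨s, rfl⟩; exact hle 0 s⟩
  have hpt : (0 : ℝ) < 2 ^ t := by positivity
  have hlog : 2 ^ t * a t = Real.log (x t) := by
    simp only [ha]
    field_simp
  constructor
  · have h3 : (⨅ s, a s) ≤ a t := ciInf_le hbdd t
    have h4 : 2 ^ t * (⨅ s, a s) ≤ Real.log (x t) := by
      rw [← hlog]
      exact mul_le_mul_of_nonneg_left h3 hpt.le
    calc Real.exp (2 ^ t * ⨅ s, a s) ≤ Real.exp (Real.log (x t)) := Real.exp_le_exp.2 h4
      _ = x t := Real.exp_log (hx t)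
  · have h3 : a t + Real.log ε * (1 / 2 ^ t) ≤ ⨅ s, a s := le_ciInf (hle t)
    have h4 : Real.log (x t) + Real.log ε ≤ 2 ^ t * (⨅ s, a s) := by
      have := mul_le_mul_of_nonneg_left h3 hpt.le
      have h5 : 2 ^ t * (a t + Real.log ε * (1 / 2 ^ t)) = Real.log (x t) + Real.log ε := by
        rw [mul_add, hlog]
        field_simp
      rwa [h5] at this
    have h5 : x t * ε ≤ Real.exp (2 ^ t * ⨅ s, a s) := by
      calc x t * ε = Real.exp (Real.log (x t) + Real.log ε) := by
            rw [Real.exp_add, Real.exp_log (hx t), Real.exp_log hε]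
        _ ≤ _ := Real.exp_le_exp.2 h4
    rw [inv_mul_eq_div, le_div_iff₀ hε]
    exact h5

/-- module A2 -/
theorem hA2 (h1 : StA1) : StA2 := by
  intro S b hb
  obtain ⟨ε, hε, hε1, hlow⟩ := h1 S b hb
  have hnn : ∀ t j, 0 ≤ (T^[t] b) j := by
    intro t j
    by_cases hj : j ∈ S
    · exact (hb.pos hj).le
    · exact (hb.zero hj).ge
  refine ⟨fun k => ⨅ s : ℕ, Real.log ((T^[s] b) k) / 2 ^ s, ε⁻¹, ?_, fun t k hk => ?_⟩
  · rw [one_le_inv₀ hε]
    exact hε1
  · refine rate_A2 (fun s => (T^[s] b) k) ε hε hε1 (fun s => hb.pos hk) (fun s => hlow s k hk)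
      (fun s => ?_) t
    rw [T_succ]
    have := mul_nonneg (hnn s (k - 1)) (hnn s (k + 1))
    linarith

end Pool.Agent.Helper28.DF
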