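import Pool.Agent.Helper99.DF.St

/-! Project DF, module BAS: a rational basis with common denominator. -/

set_option autoImplicit false

namespace Pool.Agent.Helper28.DF

open Pool.Agent.Helper99.DF

/-- module BAS -/
theorem hBAS : StBAS := by
  classical
  intro Z c
  induction Z using Finset.induction_on with
  | empty => exact ⟨∅, Finset.Subset.refl _, by simp, 1, one_pos, fun _ _ => 0, by simp⟩
  | insert z Z hz ih =>
    obtain ⟨J, hJ, hind, D, hD, m, hm⟩ := ih
    by_cases h : ∃ D' : ℕ, 0 < D' ∧ ∃ m' : ℕ → ℤ, (D' : ℝ) * c z = ∑ l ∈ J, (m' l : ℝ) * c l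
    · obtain ⟨D', hD', m', hm'⟩ := h
      refine ⟨J, hJ.trans (Finset.subset_insert _ _), hind, D * D', Nat.mul_pos hD hD',
        fun k l => if k = z then D * m' l else D' * m k l, ?_⟩
      intro k hk
      by_cases hkz : k = z
      · subst hkz
        simp only [if_true]
        push_cast
        rw [mul_assoc, hm', Finset.mul_sum]
        exact Finset.sum_congr rfl fun l _ => by ring
      · have hkZ : k ∈ Z := Finset.mem_of_mem_insert_of_ne hk hkz
        simp only [if_neg hkz]
        push_cast
        rw [mul_comm (D : ℝ), mul_assoc, hm k hkZ, Finset.mul_sum]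
        exact Finset.sum_congr rfl fun l _ => by ring
    · have hzJ : z ∉ J := fun h' => hz (hJ h')
      refine ⟨insert z J, Finset.insert_subset_insert _ hJ, ?_, D, hD,
        fun k l => if k = z then (if l = z then (D : ℤ) else 0) else (if l = z then 0 else m k l), ?_⟩
      · intro n hn
        rw [Finset.sum_insert hzJ] at hn
        have hnz : n z = 0 := by
          by_contra hne
          apply h
          refine ⟨(n z).natAbs, Int.natAbs_pos.2 hne, fun l => -(Int.sign (n z) * n l), ?_⟩
          have h1 : ((n z).natAbs : ℝ) = (Int.sign (n z) : ℝ) * (n z : ℝ) := by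
            have : ((n z).natAbs : ℤ) = Int.sign (n z) * n z := by
              rw [Int.sign_mul_self_eq_abs, Int.natCast_natAbs]
            have h5 : (((n z).natAbs : ℤ) : ℝ) = ((Int.sign (n z) * n z : ℤ) : ℝ) := by rw [this]
            rw [Int.cast_natCast, Int.cast_mul] at h5
            exact h5
          rw [h1]
          have h2 : ∑ l ∈ J, ((-(Int.sign (n z) * n l) : ℤ) : ℝ) * c l =
              -(Int.sign (n z) : ℝ) * ∑ l ∈ J, (n l : ℝ) * c l := by
            rw [Finset.mul_sum]
            refine Finset.sum_congr rfl fun l _ => ?_
            push_cast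
            ring
          rw [h2]
          linear_combination (Int.sign (n z) : ℝ) * hn
        rw [hnz, Int.cast_zero, zero_mul, zero_add] at hn
        intro k hk
        rcases Finset.mem_insert.1 hk with rfl | hk
        · exact hnz
        · exact hind n hn k hk
      · intro k hk
        rw [Finset.sum_insert hzJ]
        by_cases hkz : k = z
        · subst hkz
          simp only [if_true]
          have h0 : ∑ l ∈ J, (((if l = k then (D : ℤ) else 0) : ℤ) : ℝ) * c l = 0 := by
            refine Finset.sum_eq_zero fun l hl => ?_
            have hlk : l ≠ k := fun hlk => hzJ (hlk ▸ hl)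
            rw [if_neg hlk]
            simp
          rw [h0, add_zero]
          push_cast
          rfl
        · have hkZ : k ∈ Z := Finset.mem_of_mem_insert_of_ne hk hkz
          simp only [if_neg hkz, if_true, Int.cast_zero, zero_mul, zero_add]
          rw [hm k hkZ]
          refine Finset.sum_congr rfl fun l hl => ?_
          have hlz : l ≠ z := fun hlz => hzJ (hlz ▸ hl)
          rw [if_neg hlz]

end Pool.Agent.Helper28.DF
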