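import Pool.Agent.Helper99.DF.St

/-! Project DF, module PR7: the shell check is primitive recursive. -/

set_option autoImplicit false

namespace Pool.Agent.Helper28.DF

open Pool.Agent.Helper99.DF Pool.Agent.Helper4.IL

theorem primrec_pow_PR7 : Primrec₂ ((· ^ ·) : ℕ → ℕ → ℕ) :=
  Primrec₂.unpaired'.1 Nat.Primrec.pow

theorem primrec_ex_PR7 : Primrec₂ ex := Primrec.list_getD 0

theorem primrec_sumN_PR7 : Primrec (List.sum : List ℕ → ℕ) := by
  have h : Primrec (fun l : List ℕ => l.foldr (fun b s => b + s) 0) :=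
    Primrec.list_foldr (h := fun (_ : List ℕ) (q : ℕ × ℕ) => q.1 + q.2) Primrec.id
      (Primrec.const 0)
      (Primrec.nat_add.comp (Primrec.fst.comp Primrec.snd) (Primrec.snd.comp Primrec.snd))
  refine h.of_eq fun l => ?_
  induction l with
  | nil => rfl
  | cons a l ih => rw [List.foldr_cons, List.sum_cons, ih]

theorem primrec_sumZ_PR7 : Primrec (List.sum : List ℤ → ℤ) := by
  have h : Primrec (fun l : List ℤ => l.foldr (fun b s => b + s) 0) :=
    Primrec.list_foldr (h := fun (_ : List ℤ) (q : ℤ × ℤ) => q.1 + q.2) Primrec.id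
      (Primrec.const 0)
      (primrec_int_add.comp (Primrec.fst.comp Primrec.snd) (Primrec.snd.comp Primrec.snd))
  refine h.of_eq fun l => ?_
  induction l with
  | nil => rfl
  | cons a l ih => rw [List.foldr_cons, List.sum_cons, ih]

theorem primrec_nrm_PR7 : Primrec nrm := by
  have h1 : Primrec (fun p : Pol => p.map (fun ce : ℤ × List ℕ => ce.1.natAbs)) :=
    Primrec.list_map (g := fun (_ : Pol) (ce : ℤ × List ℕ) => ce.1.natAbs) Primrec.id
      (primrec_int_natAbs.comp (Primrec.fst.comp Primrec.snd))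
  exact primrec_sumN_PR7.comp h1

/-- parameters of `P0` -/
abbrev A7 : Type := List ℕ × ℕ × ℕ × ℕ × ℕ × List ℕ × Pol

theorem primrec_P0_PR7 : Primrec (fun a : A7 => P0 a.1 a.2.1 a.2.2.1 a.2.2.2.1 a.2.2.2.2.1
    a.2.2.2.2.2.1 a.2.2.2.2.2.2) := by
  -- projections from `A7 × (ℤ × List ℕ)`
  have a0 : Primrec (fun x : A7 × (ℤ × List ℕ) => x.1) := Primrec.fst
  have a1 := Primrec.snd.comp a0
  have a2 := Primrec.snd.comp a1
  have a3 := Primrec.snd.comp a2
  have a4 := Primrec.snd.comp a3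
  have a5 := Primrec.snd.comp a4
  have zs := Primrec.fst.comp a0
  have pi := Primrec.fst.comp a1
  have pN := Primrec.fst.comp a2
  have pX := Primrec.fst.comp a3
  have pm := Primrec.fst.comp a4
  have pg := Primrec.fst.comp a5
  have ce : Primrec (fun x : A7 × (ℤ × List ℕ) => x.2) := Primrec.snd
  have c1 := Primrec.fst.comp ce
  have c2 := Primrec.snd.comp ce
  have hR : PrimrecRel (fun (k : ℕ) (y : List ℕ × List ℕ) => ex y.1 k = ex y.2 k) :=
    Primrec.eq.comp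
      (primrec_ex_PR7.comp (Primrec.fst.comp Primrec.snd) Primrec.fst)
      (primrec_ex_PR7.comp (Primrec.snd.comp Primrec.snd) Primrec.fst)
  have hc : PrimrecPred (fun x : A7 × (ℤ × List ℕ) =>
      ∀ k ∈ x.1.1, ex x.2.2 k = ex x.1.2.2.2.2.2.1 k) :=
    hR.forall_mem_list.comp zs (Primrec.pair c2 pg)
  have he := primrec_ex_PR7.comp c2 pi
  have hv := primrec_int_mul.comp
    (primrec_int_mul.comp c1 (primrec_int_ofNat.comp (primrec_pow_PR7.comp pm he)))
    (primrec_int_ofNat.comp (primrec_pow_PR7.comp pX (Primrec.nat_sub.comp pN he)))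
  have hg := Primrec.ite hc hv (Primrec.const (0 : ℤ))
  have hp : Primrec (fun a : A7 => a.2.2.2.2.2.2) :=
    Primrec.snd.comp (Primrec.snd.comp (Primrec.snd.comp (Primrec.snd.comp
      (Primrec.snd.comp Primrec.snd))))
  have h := primrec_sumZ_PR7.comp (Primrec.list_map hp hg.to₂)
  refine h.of_eq fun a => ?_
  unfold P0
  congr 1

/-- parameters of the check -/
abbrev Q7 : Type := (ℕ × ℕ × ℕ × ℕ) × (List ℕ × List ℕ × List ℕ × List ℕ × List ℕ) × List Ent

/-- module PR7 -/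
theorem hPR7 : StPR7 := by
  -- variables `x : ℕ × (Ent × Q7)`
  have xm : Primrec (fun x : ℕ × (Ent × Q7) => x.1) := Primrec.fst
  have en : Primrec (fun x : ℕ × (Ent × Q7) => x.2.1) := Primrec.fst.comp Primrec.snd
  have qq : Primrec (fun x : ℕ × (Ent × Q7) => x.2.2) := Primrec.snd.comp Primrec.snd
  have e1 := Primrec.fst.comp en
  have e2 := Primrec.snd.comp en
  have eg := Primrec.fst.comp e2
  have ep := Primrec.snd.comp e2
  have q1 := Primrec.fst.comp qq
  have qD := Primrec.fst.comp q1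
  have q12 := Primrec.snd.comp q1
  have qe0 := Primrec.fst.comp q12
  have q122 := Primrec.snd.comp q12
  have qN := Primrec.fst.comp q122
  have qMg := Primrec.snd.comp q122
  have q2 := Primrec.snd.comp qq
  have q21 := Primrec.fst.comp q2
  have qZs := Primrec.fst.comp q21
  have q212 := Primrec.snd.comp q21
  have qlo := Primrec.fst.comp q212
  have q213 := Primrec.snd.comp q212
  have qhi := Primrec.fst.comp q213
  have q214 := Primrec.snd.comp q213
  have qlo2 := Primrec.fst.comp q214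
  have qhi2 := Primrec.snd.comp q214
  have mul : ∀ {f g : ℕ × (Ent × Q7) → ℕ}, Primrec f → Primrec g → Primrec fun x => f x * g x :=
    fun hf hg => Primrec.nat_mul.comp hf hg
  have le : ∀ {f g : ℕ × (Ent × Q7) → ℕ}, Primrec f → Primrec g → PrimrecPred fun x => f x ≤ g x :=
    fun hf hg => Primrec.nat_le.comp hf hg
  have k1 := le (mul (primrec_ex_PR7.comp qlo2 e1) qMg) xm
  have k2 := le xm (mul (primrec_ex_PR7.comp qlo e1) qMg)
  have k3 := le (mul (primrec_ex_PR7.comp qhi e1) qMg) xm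
  have k4 := le xm (mul (primrec_ex_PR7.comp qhi2 e1) qMg)
  have hcond := (k1.and k2).or (k3.and k4)
  have hX := mul qMg qD
  have hn := primrec_nrm_PR7.comp ep
  have hL := Primrec.nat_add.comp
    (mul (mul qe0 hn) (primrec_pow_PR7.comp hX qN))
    (mul (mul (mul qD qN) hn) (primrec_pow_PR7.comp hX
      (Primrec.nat_sub.comp qN (Primrec.const 1))))
  have hP := primrec_P0_PR7.comp (Primrec.pair qZs (Primrec.pair e1 (Primrec.pair qN
    (Primrec.pair hX (Primrec.pair xm (Primrec.pair eg ep))))))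
  have hR := mul qD (primrec_int_natAbs.comp hP)
  have hlt := Primrec.nat_lt.comp hL hR
  have h2 := (hcond.not).or hlt
  have h2' : PrimrecRel (fun (m : ℕ) (y : Ent × Q7) =>
      (((ex y.2.2.1.2.2.2.1 y.1.1 * y.2.1.2.2.2 ≤ m ∧ m ≤ ex y.2.2.1.2.1 y.1.1 * y.2.1.2.2.2) ∨
        (ex y.2.2.1.2.2.1 y.1.1 * y.2.1.2.2.2 ≤ m ∧ m ≤ ex y.2.2.1.2.2.2.2 y.1.1 * y.2.1.2.2.2)) →
      y.2.1.2.1 * nrm y.1.2.2 * (y.2.1.2.2.2 * y.2.1.1) ^ y.2.1.2.2.1 +
          y.2.1.1 * y.2.1.2.2.1 * nrm y.1.2.2 * (y.2.1.2.2.2 * y.2.1.1) ^ (y.2.1.2.2.1 - 1)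
        < y.2.1.1 * (P0 y.2.2.1.1 y.1.1 y.2.1.2.2.1 (y.2.1.2.2.2 * y.2.1.1) m y.1.2.1 y.1.2.2).natAbs)) := by
    refine PrimrecPred.of_eq h2 fun x => ?_
    exact imp_iff_not_or.symm
  have h1 := h2'.forall_mem_list
  have yq : Primrec (fun x : Ent × Q7 => x.2) := Primrec.snd
  have yD := Primrec.fst.comp (Primrec.fst.comp yq)
  have yMg := Primrec.snd.comp (Primrec.snd.comp (Primrec.snd.comp (Primrec.fst.comp yq)))
  have yr : Primrec (fun x : Ent × Q7 => List.range (x.2.1.2.2.2 * x.2.1.1 + 1)) :=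
    Primrec.list_range.comp (Primrec.succ.comp (Primrec.nat_mul.comp yMg yD))
  have h3 := h1.comp yr Primrec.id
  have h3' : PrimrecRel (fun (en : Ent) (q : Q7) =>
      ∀ m ∈ List.range (q.1.2.2.2 * q.1.1 + 1),
      (((ex q.2.1.2.2.2.1 en.1 * q.1.2.2.2 ≤ m ∧ m ≤ ex q.2.1.2.1 en.1 * q.1.2.2.2) ∨
        (ex q.2.1.2.2.1 en.1 * q.1.2.2.2 ≤ m ∧ m ≤ ex q.2.1.2.2.2.2 en.1 * q.1.2.2.2)) →
      q.1.2.1 * nrm en.2.2 * (q.1.2.2.2 * q.1.1) ^ q.1.2.2.1 +
          q.1.1 * q.1.2.2.1 * nrm en.2.2 * (q.1.2.2.2 * q.1.1) ^ (q.1.2.2.1 - 1)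
        < q.1.1 * (P0 q.2.1.1 en.1 q.1.2.2.1 (q.1.2.2.2 * q.1.1) m en.2.1 en.2.2).natAbs)) := by
    refine PrimrecPred.of_eq h3 fun x => ?_
    exact Iff.rfl
  have h4 := h3'.forall_mem_list.comp (Primrec.snd.comp (Primrec.snd (α := ℕ × ℕ × ℕ × ℕ)
    (β := (List ℕ × List ℕ × List ℕ × List ℕ × List ℕ) × List Ent))) Primrec.id
  refine PrimrecPred.of_eq h4 fun q => ?_
  exact Iff.rfl

end Pool.Agent.Helper28.DF
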